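import Pool.Agent.Y142.SI.Core

/-!
# Classes of automorphisms which act in a given way on the roots of a polynomial
-/

set_option autoImplicit false

open Polynomial
open Pool.Agent.Y142.ZO Pool.Agent.Y142.ZI Pool.Agent.Y142.SS Pool.Agent.Y142.SI

namespace Q43.DO

/-- `g` fixes a root -/
def FixOne (Q : ℚ[X]) : Set (GK ℚ) := {g | ∃ x : QQ, aeval x Q = 0 ∧ g x = x}

/-- `g` fixes at most one root -/
def FewFix (Q : ℚ[X]) : Set (GK ℚ) :=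
  {g | ∀ x y : QQ, aeval x Q = 0 → aeval y Q = 0 → g x = x → g y = y → x = y}

/-- `g` acts on the roots by a permutation with sign `e` -/
def Sgn (e : ℤˣ) (Q : ℚ[X]) : Set (GK ℚ) :=
  {g | ∃ (m : ℕ) (z : Fin m → QQ) (π : Equiv.Perm (Fin m)), Function.Injective z ∧
    (∀ x : QQ, aeval x Q = 0 ↔ ∃ a, z a = x) ∧ (∀ a, g (z a) = z (π a)) ∧ Equiv.Perm.sign π = e}

theorem isClass_noSet (Gd : Set ℚ[X]) (d : ℕ) : IsClass Gd (NoSet d) :=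
  ⟨fun _ _ h hg => noSet_conj hg h, fun _ _ _ _ hg ht => noSet_mul hg ht,
    fun _ _ _ h hg => noSet_trans h hg⟩

theorem isClass_fixOne (Gd : Set ℚ[X]) : IsClass Gd FixOne := by
  refine ⟨?_, ?_, ?_⟩
  · rintro Q g h ⟨x, hx, hgx⟩
    refine ⟨h x, aeval_aut _ hx, ?_⟩
    rw [AlgEquiv.mul_apply, AlgEquiv.mul_apply, ← AlgEquiv.mul_apply h⁻¹ h, inv_mul_cancel,
      AlgEquiv.one_apply, hgx]
  · rintro Q - g t ⟨x, hx, hgx⟩ ht
    exact ⟨x, hx, by rw [AlgEquiv.mul_apply, ht x hx, hgx]⟩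
  · rintro Q₁ Q₂ σ ⟨ψ, h1, h2, h3, h4⟩ ⟨x, hx, hσx⟩
    exact ⟨ψ x, h1 x hx, by rw [← h4 x hx, hσx]⟩

theorem isClass_fewFix (Gd : Set ℚ[X]) : IsClass Gd FewFix := by
  refine ⟨?_, ?_, ?_⟩
  · intro Q g h hg x y hx hy hgx hgy
    have key : ∀ x : QQ, (h * g * h⁻¹) x = x → g (h⁻¹ x) = h⁻¹ x := by
      intro x hx
      have h1 := congrArg (h⁻¹ : GK ℚ) hx
      rw [← AlgEquiv.mul_apply] at h1
      have e : h⁻¹ * (h * g * h⁻¹) = g * h⁻¹ := by group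
      rwa [e, AlgEquiv.mul_apply] at h1
    exact (h⁻¹ : GK ℚ).injective (hg _ _ (aeval_aut _ hx) (aeval_aut _ hy) (key x hgx) (key y hgy))
  · intro Q _ g t hg ht x y hx hy hgx hgy
    rw [AlgEquiv.mul_apply, ht x hx] at hgx
    rw [AlgEquiv.mul_apply, ht y hy] at hgy
    exact hg x y hx hy hgx hgy
  · rintro Q₁ Q₂ σ ⟨ψ, h1, h2, h3, h4⟩ hσ x y hx hy hσx hσy
    obtain ⟨x, hx', rfl⟩ := h3 x hx
    obtain ⟨y, hy', rfl⟩ := h3 y hy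
    rw [← h4 x hx'] at hσx
    rw [← h4 y hy'] at hσy
    rw [hσ x y hx' hy' (h2 _ _ (aeval_aut _ hx') hx' hσx) (h2 _ _ (aeval_aut _ hy') hy' hσy)]

theorem isClass_sgn (Gd : Set ℚ[X]) (e : ℤˣ) : IsClass Gd (Sgn e) := by
  refine ⟨?_, ?_, ?_⟩
  · rintro Q g h ⟨m, z, π, hz, hr, hg, hπ⟩
    refine ⟨m, fun a => h (z a), π, fun a b hab => hz (h.injective hab), fun x => ?_, fun a => ?_, hπ⟩
    · constructor
      · intro hx
        obtain ⟨a, ha⟩ := (hr _).1 (aeval_aut h⁻¹ hx)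
        refine ⟨a, ?_⟩
        change h (z a) = x
        rw [ha, ← AlgEquiv.mul_apply, mul_inv_cancel, AlgEquiv.one_apply]
      · rintro ⟨a, rfl⟩
        exact aeval_aut h ((hr _).2 ⟨a, rfl⟩)
    · rw [AlgEquiv.mul_apply, AlgEquiv.mul_apply, ← AlgEquiv.mul_apply h⁻¹ h, inv_mul_cancel,
        AlgEquiv.one_apply, hg]
  · rintro Q - g t ⟨m, z, π, hz, hr, hg, hπ⟩ ht
    exact ⟨m, z, π, hz, hr, fun a => by rw [AlgEquiv.mul_apply, ht _ ((hr _).2 ⟨a, rfl⟩), hg], hπ⟩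
  · rintro Q₁ Q₂ σ ⟨ψ, h1, h2, h3, h4⟩ ⟨m, z, π, hz, hr, hg, hπ⟩
    have hroot : ∀ a, aeval (z a) Q₁ = 0 := fun a => (hr _).2 ⟨a, rfl⟩
    refine ⟨m, fun a => ψ (z a), π, fun a b hab => hz (h2 _ _ (hroot a) (hroot b) hab),
      fun x => ?_, fun a => ?_, hπ⟩
    · constructor
      · intro hx
        obtain ⟨y, hy, rfl⟩ := h3 x hx
        obtain ⟨a, rfl⟩ := (hr _).1 hy
        exact ⟨a, rfl⟩
      · rintro ⟨a, rfl⟩
        exact h1 _ (hroot a)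
    · rw [← h4 _ (hroot a), hg]

end Q43.DO
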