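import Pool.Agent.Q43.DO.Loc

/-!
# The local conditions hold at 100 percent of the primes
-/

set_option autoImplicit false
set_option linter.unusedSectionVars false

open Polynomial NumberField IsDedekindDomain Filter Topology
open Pool.Agent.Y142.ZO Pool.Agent.Y142.ZI Pool.Agent.Y142.SS Pool.Agent.Y142.SI
open Pool.Agent.Y142.ZD (S_SUB)
open Pool.Agent.Y142.ZS (NiceP)
open scoped Matrix

namespace Q43.DO

/-- the tasks -/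
structure Tasks : Prop where
  loc : S_LOC
  logr : S_LOGR
  krs : S_KRS
  chara : S_CHARA
  multi : S_MULTI
  frob : S_FROB
  int : S_INT
  dens : S_DENS2
  sub : S_SUB
  subf : S_SUBF

theorem dz_empty : Pool.Agent.Y142.ZI.DensityZero (∅ : Set ℕ) := by
  have h : (fun n : ℕ => (Nat.card {ℓ : ℕ // ℓ ≤ n ∧ ℓ ∈ (∅ : Set ℕ)} : ℝ) /
      (Nat.primeCounting n : ℝ)) = fun _ => 0 := by
    funext n
    have : IsEmpty {ℓ : ℕ // ℓ ≤ n ∧ ℓ ∈ (∅ : Set ℕ)} := ⟨fun x => x.2.2⟩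
    rw [Nat.card_of_isEmpty, Nat.cast_zero, zero_div]
  unfold Pool.Agent.Y142.ZI.DensityZero
  rw [h]
  exact tendsto_const_nhds

theorem dz_finset {I : Type} (s : Finset I) (A : I → Set ℕ)
    (h : ∀ i ∈ s, Pool.Agent.Y142.ZI.DensityZero (A i)) :
    Pool.Agent.Y142.ZI.DensityZero {ℓ | ∃ i ∈ s, ℓ ∈ A i} := by
  classical
  induction s using Finset.induction_on with
  | empty => exact dz_empty.mono fun ℓ hℓ => by simp at hℓ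
  | insert i s _ ih =>
    refine ((h i (Finset.mem_insert_self i s)).union
      (ih fun k hk => h k (Finset.mem_insert_of_mem hk))).mono ?_
    rintro ℓ ⟨k, hk, hℓ⟩
    rcases Finset.mem_insert.1 hk with rfl | hk
    · exact Or.inl hℓ
    · exact Or.inr ⟨k, hk, hℓ⟩

section
variable {K : Type} [Field K] [NumberField K] {N : ℕ} {S : Set (HeightOneSpectrum (𝓞 K))}
  {P : HeightOneSpectrum (𝓞 K) → ℚ[X]}

/-- every automorphism of the intersection of the splitting fields is realised by the class -/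
def Realised (S : Set (HeightOneSpectrum (𝓞 K))) (P : HeightOneSpectrum (𝓞 K) → ℚ[X]) {m : ℕ}
    (u : Fin (m + 1) → HeightOneSpectrum (𝓞 K)) (Φ : ℚ[X] → Set (GK ℚ)) : Prop :=
  ∀ g : GK ℚ, ∃ v, NiceP S P v ∧ ∃ w ∈ Φ (P v),
    w⁻¹ * g ∈ Subgroup.closure (⋃ i, Fix (P (u i)))

theorem dens_loc (T : Tasks) (hN : 0 < N) (hS : S.Finite)
    (ρ : ∀ (ℓ : ℕ) [Fact ℓ.Prime], GK K →* Matrix (Fin N) (Fin N) ℚ_[ℓ])
    (hsys : ∀ (ℓ : ℕ) [Fact ℓ.Prime], Sys K N ℓ (ρ ℓ) S P)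
    {m : ℕ} {u : Fin (m + 1) → HeightOneSpectrum (𝓞 K)} (hu : ∀ i, NiceP S P (u i))
    {Φ : ℚ[X] → Set (GK ℚ)} (hΦ : IsClass Set.univ Φ) (hex : Realised S P u Φ)
    (L : ∀ (ℓ : ℕ) [Fact ℓ.Prime], HeightOneSpectrum (𝓞 K) → Prop)
    (hL : ∀ v, NiceP S P v → ∃ b : ℕ, ∀ ℓ : ℕ, b < ℓ → ∀ _ : Fact ℓ.Prime, ∀ σ : GK ℚ,
      FrobAt ℓ σ → σ ∈ Φ (P v) → L ℓ v) :
    Pool.Agent.Y142.ZI.DensityZero {ℓ | ∃ _ : Fact ℓ.Prime,
      ¬ ∃ v, NiceP S P v ∧ (ℓ : 𝓞 K) ∉ v.asIdeal ∧ L ℓ v} := by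
  refine densityPhi T.loc T.logr T.krs T.chara T.multi T.frob T.int T.dens hN hS ρ hsys u hu
    (Gd := Set.univ) (fun _ _ => trivial) hΦ hex _ (fun ℓ hℓ => hℓ.1.out) ?_
  intro v hv
  obtain ⟨b, hb⟩ := hL v hv
  refine ⟨max b (Ideal.absNorm v.asIdeal), ?_⟩
  rintro ℓ ⟨hp, hno⟩ hℓ σ hσ hcl
  rw [max_lt_iff] at hℓ
  exact hno ⟨v, hv, not_mem_of_lt v hp.out hℓ.2, hb ℓ hℓ.1 hp σ hσ hcl⟩

/-- the conditions for even rank -/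
def EvenC (S : Set (HeightOneSpectrum (𝓞 K))) (P : HeightOneSpectrum (𝓞 K) → ℚ[X]) {m : ℕ}
    (u : Fin (m + 1) → HeightOneSpectrum (𝓞 K)) (N : ℕ) : Prop :=
  (∀ d, 0 < d → d < N → Realised S P u (NoSet d)) ∧ Realised S P u FixOne

/-- the conditions for odd rank -/
def OddC (S : Set (HeightOneSpectrum (𝓞 K))) (P : HeightOneSpectrum (𝓞 K) → ℚ[X]) {m : ℕ}
    (u : Fin (m + 1) → HeightOneSpectrum (𝓞 K)) (N : ℕ) : Prop :=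
  (∀ d, 1 < d → d + 1 < N → Realised S P u (NoSet d)) ∧ Realised S P u FewFix ∧
    ∀ e, Realised S P u (Sgn e)

/-- the local conditions for even rank -/
def GoodE (S : Set (HeightOneSpectrum (𝓞 K))) (P : HeightOneSpectrum (𝓞 K) → ℚ[X]) (N : ℕ)
    (ℓ : ℕ) [Fact ℓ.Prime] : Prop :=
  (∀ d, 0 < d → d < N → ∃ v, NiceP S P v ∧ (ℓ : 𝓞 K) ∉ v.asIdeal ∧
    Q43.FD.NoFactor ((P v).map (algebraMap ℚ ℚ_[ℓ])) d) ∧
  ∃ v, NiceP S P v ∧ (ℓ : 𝓞 K) ∉ v.asIdeal ∧ ∃ μ, ((P v).map (algebraMap ℚ ℚ_[ℓ])).eval μ = 0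

/-- the local conditions for odd rank -/
def GoodO (S : Set (HeightOneSpectrum (𝓞 K))) (P : HeightOneSpectrum (𝓞 K) → ℚ[X]) (N : ℕ)
    (ℓ : ℕ) [Fact ℓ.Prime] : Prop :=
  (∀ d, 1 < d → d + 1 < N → ∃ v, NiceP S P v ∧ (ℓ : 𝓞 K) ∉ v.asIdeal ∧
    Q43.FD.NoFactor ((P v).map (algebraMap ℚ ℚ_[ℓ])) d) ∧
  ∃ v v', NiceP S P v ∧ (ℓ : 𝓞 K) ∉ v.asIdeal ∧ NiceP S P v' ∧ (ℓ : 𝓞 K) ∉ v'.asIdeal ∧
    Q43.FD.TwoLines ℚ_[ℓ] ((P v).map (algebraMap ℚ ℚ_[ℓ])) ((P v').map (algebraMap ℚ ℚ_[ℓ]))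

theorem dens_even (T : Tasks) (hN : 0 < N) (hS : S.Finite)
    (ρ : ∀ (ℓ : ℕ) [Fact ℓ.Prime], GK K →* Matrix (Fin N) (Fin N) ℚ_[ℓ])
    (hsys : ∀ (ℓ : ℕ) [Fact ℓ.Prime], Sys K N ℓ (ρ ℓ) S P)
    {m : ℕ} {u : Fin (m + 1) → HeightOneSpectrum (𝓞 K)} (hu : ∀ i, NiceP S P (u i))
    (h : EvenC S P u N) :
    Pool.Agent.Y142.ZI.DensityZero {ℓ | ∃ _ : Fact ℓ.Prime, ¬ GoodE S P N ℓ} := by
  classical
  obtain ⟨h1, h2⟩ := h
  have hA : ∀ d ∈ (Finset.range N).filter (fun d => 0 < d),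
      Pool.Agent.Y142.ZI.DensityZero {ℓ | ∃ _ : Fact ℓ.Prime,
        ¬ ∃ v, NiceP S P v ∧ (ℓ : 𝓞 K) ∉ v.asIdeal ∧
          Q43.FD.NoFactor ((P v).map (algebraMap ℚ ℚ_[ℓ])) d} := by
    intro d hd
    rw [Finset.mem_filter, Finset.mem_range] at hd
    exact dens_loc T hN hS ρ hsys hu (isClass_noSet _ d) (h1 d hd.2 hd.1)
      (fun ℓ _ v => Q43.FD.NoFactor ((P v).map (algebraMap ℚ ℚ_[ℓ])) d)
      (fun v hv => loc_noSet T.sub hv.2.1 hv.2.2.1 d)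
  have hB := dens_loc T hN hS ρ hsys hu (isClass_fixOne _) h2
      (fun ℓ _ v => ∃ μ, ((P v).map (algebraMap ℚ ℚ_[ℓ])).eval μ = 0)
      (fun v hv => loc_fixOne T.sub hv.2.1 hv.2.2.1)
  refine ((dz_finset _ _ hA).union hB).mono ?_
  rintro ℓ ⟨hp, hno⟩
  by_contra hc
  rw [Set.mem_union, not_or] at hc
  apply hno
  constructor
  · intro d hd hdN
    by_contra h3
    exact hc.1 ⟨d, by rw [Finset.mem_filter, Finset.mem_range]; exact ⟨hdN, hd⟩, hp, h3⟩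
  · by_contra h3
    exact hc.2 ⟨hp, h3⟩

theorem dens_odd (T : Tasks) (hN : Odd N) (hS : S.Finite)
    (ρ : ∀ (ℓ : ℕ) [Fact ℓ.Prime], GK K →* Matrix (Fin N) (Fin N) ℚ_[ℓ])
    (hsys : ∀ (ℓ : ℕ) [Fact ℓ.Prime], Sys K N ℓ (ρ ℓ) S P)
    (hrec : ∀ v, NiceP S P v → ∀ x : QQ, aeval x (P v) = 0 → x ≠ 0 ∧ aeval x⁻¹ (P v) = 0)
    {m : ℕ} {u : Fin (m + 1) → HeightOneSpectrum (𝓞 K)} (hu : ∀ i, NiceP S P (u i))
    (h : OddC S P u N) :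
    Pool.Agent.Y142.ZI.DensityZero {ℓ | ∃ _ : Fact ℓ.Prime, ¬ GoodO S P N ℓ} := by
  classical
  obtain ⟨h1, h2, h3⟩ := h
  have hN0 : 0 < N := hN.pos
  have hA : ∀ d ∈ (Finset.range N).filter (fun d => 1 < d ∧ d + 1 < N),
      Pool.Agent.Y142.ZI.DensityZero {ℓ | ∃ _ : Fact ℓ.Prime,
        ¬ ∃ v, NiceP S P v ∧ (ℓ : 𝓞 K) ∉ v.asIdeal ∧
          Q43.FD.NoFactor ((P v).map (algebraMap ℚ ℚ_[ℓ])) d} := by
    intro d hd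
    rw [Finset.mem_filter, Finset.mem_range] at hd
    exact dens_loc T hN0 hS ρ hsys hu (isClass_noSet _ d) (h1 d hd.2.1 hd.2.2)
      (fun ℓ _ v => Q43.FD.NoFactor ((P v).map (algebraMap ℚ ℚ_[ℓ])) d)
      (fun v hv => loc_noSet T.sub hv.2.1 hv.2.2.1 d)
  have hB := dens_loc T hN0 hS ρ hsys hu (isClass_fewFix _) h2
      (fun ℓ _ v => ∀ μ ν : ℚ_[ℓ], ((P v).map (algebraMap ℚ ℚ_[ℓ])).eval μ = 0 →
        ((P v).map (algebraMap ℚ ℚ_[ℓ])).eval ν = 0 → μ = ν)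
      (fun v hv => loc_fewFix T.subf hv.2.1 hv.2.2.1)
  -- the squares
  set k : ℕ := (N - 1) / 2 with hk
  have hdata : ∀ v, NiceP S P v → ∃ (ε : ℚ) (R : ℚ[X]) (δ : QQ), ε * ε = 1 ∧
      P v = (X - C ε) * R ∧ R.eval 1 ≠ 0 ∧ R.eval (-1) ≠ 0 ∧
      δ * δ = algebraMap ℚ QQ ((-1) ^ k * (R.eval 1 * R.eval (-1))) ∧
      ∀ (e : ℤˣ) (g : GK ℚ), g ∈ Sgn e (P v) → g δ = ((e : ℤ) : QQ) * δ := by
    intro v hv
    have hdeg := (monic_of_sysA ρ hsys hv.1).2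
    obtain ⟨m', ε, R, δ, hm', h4, h5, h6, h7, h8, h9⟩ := odd_rec hv.2.1 hv.2.2.1
      (by rw [hdeg]; exact hN) (hrec v hv) (fun x y hx hy hxy => hv.2.2.2 2 x y two_pos hx hy hxy)
    have h10 : m' = k := by omega
    rw [h10] at h8
    exact ⟨ε, R, δ, h4, h5, h6, h7, h8, h9⟩
  choose ε R δ hε hR hR1 hR1' hδ hsg using hdata
  have hD0 : ∀ v (hv : NiceP S P v),
      (-1) ^ k * ((R v hv).eval 1 * (R v hv).eval (-1)) ≠ 0 := fun v hv =>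
    mul_ne_zero (pow_ne_zero _ (by norm_num)) (mul_ne_zero (hR1 v hv) (hR1' v hv))
  have hC1 := dens_loc T hN0 hS ρ hsys hu (isClass_sgn _ 1) (h3 1)
      (fun ℓ _ v => ∃ hv : NiceP S P v, IsSquare (algebraMap ℚ ℚ_[ℓ]
        ((-1) ^ k * ((R v hv).eval 1 * (R v hv).eval (-1)))))
      (fun v hv => by
        obtain ⟨b, hb⟩ := loc_sqrt T.sub (hD0 v hv) (hδ v hv)
        refine ⟨b, fun ℓ hℓ hp σ hσ hcl => ⟨hv, (hb ℓ hℓ hp σ hσ).1 ?_⟩⟩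
        rw [hsg v hv 1 σ hcl]
        simp)
  have hC2 := dens_loc T hN0 hS ρ hsys hu (isClass_sgn _ (-1)) (h3 (-1))
      (fun ℓ _ v => ∃ hv : NiceP S P v, ¬ IsSquare (algebraMap ℚ ℚ_[ℓ]
        ((-1) ^ k * ((R v hv).eval 1 * (R v hv).eval (-1)))))
      (fun v hv => by
        obtain ⟨b, hb⟩ := loc_sqrt T.sub (hD0 v hv) (hδ v hv)
        refine ⟨b, fun ℓ hℓ hp σ hσ hcl => ⟨hv, (hb ℓ hℓ hp σ hσ).2 ?_⟩⟩
        rw [hsg v hv (-1) σ hcl]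
        simp)
  refine ((dz_finset _ _ hA).union (hB.union (hC1.union hC2))).mono ?_
  rintro ℓ ⟨hp, hno⟩
  by_contra hc
  rw [Set.mem_union, Set.mem_union, Set.mem_union, not_or, not_or, not_or] at hc
  obtain ⟨hc1, hc2, hc3, hc4⟩ := hc
  have g2 : ∃ v, NiceP S P v ∧ (ℓ : 𝓞 K) ∉ v.asIdeal ∧
      ∀ μ ν : ℚ_[ℓ], ((P v).map (algebraMap ℚ ℚ_[ℓ])).eval μ = 0 →
        ((P v).map (algebraMap ℚ ℚ_[ℓ])).eval ν = 0 → μ = ν := by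
    by_contra h4
    exact hc2 ⟨hp, h4⟩
  have g3 : ∃ v, NiceP S P v ∧ (ℓ : 𝓞 K) ∉ v.asIdeal ∧
      ∃ hv : NiceP S P v, IsSquare (algebraMap ℚ ℚ_[ℓ]
        ((-1) ^ k * ((R v hv).eval 1 * (R v hv).eval (-1)))) := by
    by_contra h4
    exact hc3 ⟨hp, h4⟩
  have g4 : ∃ v, NiceP S P v ∧ (ℓ : 𝓞 K) ∉ v.asIdeal ∧
      ∃ hv : NiceP S P v, ¬ IsSquare (algebraMap ℚ ℚ_[ℓ]
        ((-1) ^ k * ((R v hv).eval 1 * (R v hv).eval (-1)))) := by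
    by_contra h4
    exact hc4 ⟨hp, h4⟩
  apply hno
  constructor
  · intro d hd hdN
    by_contra h4
    exact hc1 ⟨d, by rw [Finset.mem_filter, Finset.mem_range]; exact ⟨by omega, hd, hdN⟩, hp, h4⟩
  obtain ⟨v, hv, hvℓ, hfew⟩ := g2
  obtain ⟨v₁, -, hvℓ₁, hv₁, hsq₁⟩ := g3
  obtain ⟨v₂, -, hvℓ₂, hv₂, hsq₂⟩ := g4
  -- the second place
  obtain ⟨v', hv', hvℓ', hns⟩ : ∃ (v' : HeightOneSpectrum (𝓞 K)) (hv' : NiceP S P v'),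
      (ℓ : 𝓞 K) ∉ v'.asIdeal ∧ ¬ IsSquare
        (algebraMap ℚ ℚ_[ℓ] ((-1) ^ k * ((R v hv).eval 1 * (R v hv).eval (-1))) *
          algebraMap ℚ ℚ_[ℓ] ((-1) ^ k * ((R v' hv').eval 1 * (R v' hv').eval (-1)))) := by
    by_cases h4 : IsSquare (algebraMap ℚ ℚ_[ℓ]
        ((-1) ^ k * ((R v hv).eval 1 * (R v hv).eval (-1))))
    · refine ⟨v₂, hv₂, hvℓ₂, fun h5 => hsq₂ ?_⟩
      have h6 := h5.div h4
      rwa [mul_div_cancel_left₀] at h6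
      intro h7
      exact hD0 v hv ((algebraMap ℚ ℚ_[ℓ]).injective (by rw [h7, map_zero]))
    · refine ⟨v₁, hv₁, hvℓ₁, fun h5 => h4 ?_⟩
      have h6 := h5.div hsq₁
      rwa [mul_div_cancel_right₀] at h6
      intro h7
      exact hD0 v₁ hv₁ ((algebraMap ℚ ℚ_[ℓ]).injective (by rw [h7, map_zero]))
  refine ⟨v, v', hv, hvℓ, hv', hvℓ', algebraMap ℚ ℚ_[ℓ] (ε v hv), algebraMap ℚ ℚ_[ℓ] (ε v' hv'),
    (R v hv).map (algebraMap ℚ ℚ_[ℓ]), (R v' hv').map (algebraMap ℚ ℚ_[ℓ]), ?_, ?_, ?_, ?_, ?_, ?_, ?_⟩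
  · rw [← map_mul, hε, map_one]
  · conv_lhs => rw [hR v hv]
    rw [Polynomial.map_mul, Polynomial.map_sub, map_X, map_C]
  · conv_lhs => rw [hR v' hv']
    rw [Polynomial.map_mul, Polynomial.map_sub, map_X, map_C]
  · intro x hx
    have h4 : (P v).map (algebraMap ℚ ℚ_[ℓ]) =
        (X - C (algebraMap ℚ ℚ_[ℓ] (ε v hv))) * (R v hv).map (algebraMap ℚ ℚ_[ℓ]) := by
      conv_lhs => rw [hR v hv]
      rw [Polynomial.map_mul, Polynomial.map_sub, map_X, map_C]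
    have h5 : x = algebraMap ℚ ℚ_[ℓ] (ε v hv) := by
      apply hfew
      · rw [h4, eval_mul, hx, mul_zero]
      · rw [h4, eval_mul, eval_sub, eval_X, eval_C, sub_self, zero_mul]
    rw [h5] at hx
    obtain ⟨R', hR'⟩ := dvd_iff_isRoot.2 (show IsRoot _ _ from hx)
    have h6 : ((P v).map (algebraMap ℚ ℚ_[ℓ])).Separable := hv.2.2.1.map
    have h7 := h6.squarefree (X - C (algebraMap ℚ ℚ_[ℓ] (ε v hv)))
      ⟨R', by rw [h4, hR', mul_assoc]⟩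
    exact not_isUnit_X_sub_C _ h7
  · intro h4
    rw [show (1 : ℚ_[ℓ]) = algebraMap ℚ ℚ_[ℓ] 1 by rw [map_one], eval_map, eval₂_at_apply] at h4
    exact hR1 v' hv' ((algebraMap ℚ ℚ_[ℓ]).injective (by rw [h4, map_zero]))
  · intro h4
    rw [show (-1 : ℚ_[ℓ]) = algebraMap ℚ ℚ_[ℓ] (-1) by rw [map_neg, map_one], eval_map,
      eval₂_at_apply] at h4
    exact hR1' v' hv' ((algebraMap ℚ ℚ_[ℓ]).injective (by rw [h4, map_zero]))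
  · intro h4
    apply hns
    have h5 : ∀ (Q : ℚ[X]) (a : ℚ), (Q.map (algebraMap ℚ ℚ_[ℓ])).eval (algebraMap ℚ ℚ_[ℓ] a) =
        algebraMap ℚ ℚ_[ℓ] (Q.eval a) := by
      intro Q a
      rw [eval_map, eval₂_at_apply]
    rw [show (-1 : ℚ_[ℓ]) = algebraMap ℚ ℚ_[ℓ] (-1) by rw [map_neg, map_one],
      show (1 : ℚ_[ℓ]) = algebraMap ℚ ℚ_[ℓ] 1 by rw [map_one], h5, h5, h5, h5] at h4
    have h6 : algebraMap ℚ ℚ_[ℓ] ((-1) ^ k * ((R v hv).eval 1 * (R v hv).eval (-1))) *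
          algebraMap ℚ ℚ_[ℓ] ((-1) ^ k * ((R v' hv').eval 1 * (R v' hv').eval (-1))) =
        (algebraMap ℚ ℚ_[ℓ] ((R v hv).eval 1) * algebraMap ℚ ℚ_[ℓ] ((R v hv).eval (-1))) *
        (algebraMap ℚ ℚ_[ℓ] ((R v' hv').eval 1) * algebraMap ℚ ℚ_[ℓ] ((R v' hv').eval (-1))) := by
      rw [← map_mul, ← map_mul, ← map_mul, ← map_mul]
      congr 1
      have h7 : ((-1 : ℚ) ^ k) * (-1) ^ k = 1 := by
        rw [← mul_pow]
        norm_num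
      linear_combination (((R v hv).eval 1 * (R v hv).eval (-1)) *
        ((R v' hv').eval 1 * (R v' hv').eval (-1))) * h7
    rw [h6]
    exact h4

end

end Q43.DO
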