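import Pool.Agent.Q43.DO.Dens

/-!
# The Frobenius conditions at 100 percent of the primes
-/

set_option autoImplicit false
set_option linter.unusedSectionVars false

open Polynomial NumberField IsDedekindDomain Filter Topology
open Pool.Agent.Y142.ZO Pool.Agent.Y142.ZI Pool.Agent.Y142.SS Pool.Agent.Y142.SI
open Pool.Agent.Y142.ZS (NiceP)
open Pool.Agent.W544.PG (HS BD)
open Pool.Agent.Y95.MT (GalT qm)
open Q43.FD (sm fr smRep Nq FrC DiffC RegularP IsolatedP)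
open scoped Matrix

namespace Q43.DO

section
variable {K : Type} [Field K] [NumberField K] {S : Set (HeightOneSpectrum (𝓞 K))}
  {P : HeightOneSpectrum (𝓞 K) → ℚ[X]}

theorem regularP_of_nice {v : HeightOneSpectrum (𝓞 K)} (hv : NiceP S P v) (ℓ : ℕ) [Fact ℓ.Prime]
    (j : ℚ_[ℓ] →+* ℂ) : RegularP j ((P v).map (algebraMap ℚ ℚ_[ℓ])) := by
  obtain ⟨jc⟩ : Nonempty (QQ →+* ℂ) := nonempty_LC
  refine ⟨hv.2.2.1.map, fun x y hx hy m hm hxy => ?_⟩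
  have key : ∀ x : ℂ, ((P v).map (algebraMap ℚ ℚ_[ℓ])).eval₂ j x = 0 →
      ∃ r : QQ, aeval r (P v) = 0 ∧ jc r = x := by
    intro x hx
    have h1 : eval₂ (Rat.castHom ℂ) x (P v) = 0 := by
      rw [eval₂_map] at hx
      rw [← hx]
      congr 1
      exact Subsingleton.elim _ _
    obtain ⟨r, hr, hrx⟩ := root_lift jc hv.2.1.ne_zero h1
    refine ⟨r, ?_, hrx⟩
    rw [aeval_def, ← hr]
    congr 1
  obtain ⟨r, hr, rfl⟩ := key x hx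
  obtain ⟨s, hs, rfl⟩ := key y hy
  rw [hv.2.2.2 m r s hm hr hs (jc.injective (by rw [map_pow, map_pow, hxy]))]

theorem isolatedP_of_nice {v : HeightOneSpectrum (𝓞 K)} (hv : NiceP S P v) (ℓ : ℕ) [Fact ℓ.Prime]
    (j : ℚ_[ℓ] →+* ℂ) {μ : ℚ_[ℓ]} (hμ : ((P v).map (algebraMap ℚ ℚ_[ℓ])).eval μ = 0) :
    IsolatedP j ((P v).map (algebraMap ℚ ℚ_[ℓ])) μ := by
  have h1 := regularP_of_nice hv ℓ j
  have h2 : (P v).map (algebraMap ℚ ℚ_[ℓ]) ≠ 0 := (hv.2.1.map _).ne_zero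
  refine ⟨le_antisymm (rootMultiplicity_le_one_of_separable h1.1 μ)
    ((rootMultiplicity_pos h2).2 hμ), fun x hx m hm hxm => ?_⟩
  refine h1.2 x (j μ) hx ?_ m hm hxm
  rw [eval₂_at_apply, hμ, map_zero]

variable {n r : ℕ} {c : Fin n → Fin r} {Γ : Type} [Group Γ] {T : HS n}

/-- the representation on the block as matrices of size `N` -/
noncomputable def blk {ℓ : ℕ} [Fact ℓ.Prime] (s : GK K →* Γ)
    (β : Γ →* Matrix (Fin n) (Fin n) ℤ_[ℓ]) (hg : GalT c T.Q β) (i : Fin r) {N : ℕ}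
    (e : {a // c a = i} ≃ Fin N) : GK K →* Matrix (Fin N) (Fin N) ℚ_[ℓ] :=
  ((Matrix.reindexAlgEquiv ℚ_[ℓ] ℚ_[ℓ] e).toRingEquiv.toMonoidHom.comp
    (smRep (Nq β) (fun s => hg.qbd s) i)).comp s

theorem blk_apply {ℓ : ℕ} [Fact ℓ.Prime] (s : GK K →* Γ)
    (β : Γ →* Matrix (Fin n) (Fin n) ℤ_[ℓ]) (hg : GalT c T.Q β) (i : Fin r) {N : ℕ}
    (e : {a // c a = i} ≃ Fin N) (σ : GK K) :
    blk s β hg i e σ = Matrix.reindex e e (sm c i (qm (β (s σ)))) := rfl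

theorem blk_charpoly {ℓ : ℕ} [Fact ℓ.Prime] (s : GK K →* Γ)
    (β : Γ →* Matrix (Fin n) (Fin n) ℤ_[ℓ]) (hg : GalT c T.Q β) (i : Fin r) {N : ℕ}
    (e : {a // c a = i} ≃ Fin N) (σ : GK K) :
    (blk s β hg i e σ).charpoly = fr c β i (s σ) := by
  rw [blk_apply, Matrix.charpoly_reindex]
  rfl

theorem blk_cont {ℓ : ℕ} [Fact ℓ.Prime] (s : GK K →* Γ)
    (β : Γ →* Matrix (Fin n) (Fin n) ℤ_[ℓ]) (hg : GalT c T.Q β) (i : Fin r) {N : ℕ}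
    (e : {a // c a = i} ≃ Fin N) (h : Continuous fun σ : GK K => β (s σ)) :
    Continuous (blk s β hg i e) := by
  refine continuous_matrix fun a b => ?_
  have h1 : (fun σ => blk s β hg i e σ a b) =
      fun σ => ((β (s σ) (e.symm a).1 (e.symm b).1 : ℤ_[ℓ]) : ℚ_[ℓ]) := by
    funext σ
    rw [blk_apply]
    rfl
  rw [h1]
  exact continuous_subtype_val.comp (h.matrix_elem _ _)

/-- the form on the block -/
theorem sm_form {ℓ : ℕ} [Fact ℓ.Prime] (β : Γ →* Matrix (Fin n) (Fin n) ℤ_[ℓ])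
    (hg : GalT c T.Q β) (hQ : BD c T.Q) (i : Fin r) (s : Γ) :
    (sm c i (T.Q.map (algebraMap ℚ ℚ_[ℓ]))).det ≠ 0 ∧
      (sm c i (qm (β s)))ᵀ * sm c i (T.Q.map (algebraMap ℚ ℚ_[ℓ])) * sm c i (qm (β s)) =
        sm c i (T.Q.map (algebraMap ℚ ℚ_[ℓ])) := by
  have hQbd : BD c (T.Q.map (algebraMap ℚ ℚ_[ℓ])) := by
    intro a b hab
    rw [Matrix.map_apply, hQ a b hab, map_zero]
  constructor
  · apply Q43.FD.sm_det hQbd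
    have h1 : (T.Q.map (algebraMap ℚ ℚ_[ℓ])).det = algebraMap ℚ ℚ_[ℓ] T.Q.det :=
      (RingHom.map_det (algebraMap ℚ ℚ_[ℓ]) T.Q).symm
    rw [h1]
    intro h0
    exact Pool.Agent.W74.PG.det_ne T ((algebraMap ℚ ℚ_[ℓ]).injective (by rw [h0, map_zero]))
  · have h1 := congrArg (sm c i) (hg.form s)
    have h2 : (sm c i (qm (β s)))ᵀ = sm c i (qm (β s))ᵀ := rfl
    rw [h2, ← Q43.FD.sm_mul hQbd, ← Q43.FD.sm_mul (hg.qbd s)]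
    exact h1

/-- the conditions on one summand -/
def CondC (S : Set (HeightOneSpectrum (𝓞 K))) (P : HeightOneSpectrum (𝓞 K) → ℚ[X]) {m : ℕ}
    (u : Fin (m + 1) → HeightOneSpectrum (𝓞 K)) (N : ℕ) : Prop :=
  (∀ k, NiceP S P (u k)) ∧ (Even N → EvenC S P u N) ∧ (Odd N → OddC S P u N)

theorem dens_block (Tk : Tasks) (hS : S.Finite) (s : GK K →* Γ)
    (β : ∀ (ℓ : ℕ) [Fact ℓ.Prime], Γ →* Matrix (Fin n) (Fin n) ℤ_[ℓ])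
    (hg : ∀ (ℓ : ℕ) [Fact ℓ.Prime], GalT c T.Q (β ℓ)) (hQ : BD c T.Q)
    (hcont : ∀ (ℓ : ℕ) [Fact ℓ.Prime], Continuous fun σ : GK K => β ℓ (s σ))
    (i : Fin r) {N : ℕ} (hN : Fintype.card {a // c a = i} = N) (hN0 : 0 < N)
    (hfrob : ∀ (ℓ : ℕ) [Fact ℓ.Prime], ∀ v ∉ S, (ℓ : 𝓞 K) ∉ v.asIdeal → ∀ σ : GK K,
      Pool.Agent.Y142.ZO.IsFrobenius v σ → fr c (β ℓ) i (s σ⁻¹) = (P v).map (algebraMap ℚ ℚ_[ℓ]))
    {m : ℕ} {u : Fin (m + 1) → HeightOneSpectrum (𝓞 K)} (h : CondC S P u N)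
    (j : ∀ (ℓ : ℕ) [Fact ℓ.Prime], ℚ_[ℓ] →+* ℂ) :
    Pool.Agent.Y142.ZI.DensityZero {ℓ | ∃ _ : Fact ℓ.Prime, ¬ FrC c (j ℓ) (β ℓ) i N} := by
  classical
  let e : {a // c a = i} ≃ Fin N := Fintype.equivFinOfCardEq hN
  let ρ : ∀ (ℓ : ℕ) [Fact ℓ.Prime], GK K →* Matrix (Fin N) (Fin N) ℚ_[ℓ] := fun ℓ _ =>
    blk s (β ℓ) (hg ℓ) i e
  have hsys : ∀ (ℓ : ℕ) [Fact ℓ.Prime], Sys K N ℓ (ρ ℓ) S P := fun ℓ _ =>
    ⟨blk_cont s (β ℓ) (hg ℓ) i e (hcont ℓ), fun v hv hvℓ σ hσ => by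
      change (blk s (β ℓ) (hg ℓ) i e σ⁻¹).charpoly = _
      rw [blk_charpoly]
      exact hfrob ℓ v hv hvℓ σ hσ⟩
  have hel : ∀ (ℓ : ℕ) [Fact ℓ.Prime] (v : HeightOneSpectrum (𝓞 K)), NiceP S P v →
      (ℓ : 𝓞 K) ∉ v.asIdeal → ∃ t : Γ, fr c (β ℓ) i t = (P v).map (algebraMap ℚ ℚ_[ℓ]) := by
    intro ℓ _ v hv hvℓ
    obtain ⟨τ, hτ⟩ := Pool.Agent.W401.Frob.exists_frob v
    exact ⟨s τ⁻¹, hfrob ℓ v hv.1 hvℓ τ hτ⟩
  obtain ⟨hu, hE, hO⟩ := h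
  rcases Nat.even_or_odd N with hN2 | hN2
  · refine (dens_even Tk hN0 hS ρ hsys hu (hE hN2)).mono ?_
    rintro ℓ ⟨hp, hno⟩
    refine ⟨hp, fun hgood => hno (Or.inl ⟨fun d hd hdN => ?_, ?_⟩)⟩
    · obtain ⟨v, hv, hvℓ, hf⟩ := hgood.1 d hd hdN
      obtain ⟨t, ht⟩ := hel ℓ v hv hvℓ
      exact ⟨t, by rw [ht]; exact regularP_of_nice hv ℓ _, by rw [ht]; exact hf⟩
    · obtain ⟨v, hv, hvℓ, μ, hμ⟩ := hgood.2
      obtain ⟨t, ht⟩ := hel ℓ v hv hvℓ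
      exact ⟨t, μ, by rw [ht]; exact isolatedP_of_nice hv ℓ _ hμ⟩
  · have hrec : ∀ v, NiceP S P v → ∀ x : QQ, aeval x (P v) = 0 → x ≠ 0 ∧ aeval x⁻¹ (P v) = 0 := by
      intro v hv x hx
      obtain ⟨ℓ, hℓ, hp⟩ := Nat.exists_infinite_primes (Ideal.absNorm v.asIdeal + 1)
      have hp' : Fact ℓ.Prime := ⟨hp⟩
      have hvℓ := not_mem_of_lt v hp (Nat.lt_of_succ_le hℓ)
      obtain ⟨t, ht⟩ := hel ℓ v hv hvℓ
      obtain ⟨h1, h2⟩ := sm_form (β ℓ) (hg ℓ) hQ i t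
      exact rec_roots_Q _ _ h1 h2 ht hx
    refine (dens_odd Tk hN2 hS ρ hsys hrec hu (hO hN2)).mono ?_
    rintro ℓ ⟨hp, hno⟩
    refine ⟨hp, fun hgood => hno (Or.inr ⟨?_, fun d hd hdN => ?_⟩)⟩
    · obtain ⟨v, v', hv, hvℓ, hv', hvℓ', h2⟩ := hgood.2
      obtain ⟨t, ht⟩ := hel ℓ v hv hvℓ
      obtain ⟨t', ht'⟩ := hel ℓ v' hv' hvℓ'
      exact ⟨t, t', by rw [ht]; exact regularP_of_nice hv ℓ _, by rw [ht, ht']; exact h2⟩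
    · obtain ⟨v, hv, hvℓ, hf⟩ := hgood.1 d hd hdN
      obtain ⟨t, ht⟩ := hel ℓ v hv hvℓ
      exact ⟨t, by rw [ht]; exact regularP_of_nice hv ℓ _, by rw [ht]; exact hf⟩

theorem dz_le (b : ℕ) : Pool.Agent.Y142.ZI.DensityZero {ℓ | ℓ ≤ b} := by
  have h1 : Tendsto (fun n : ℕ => ((b + 1 : ℕ) : ℝ) / (Nat.primeCounting n : ℝ)) atTop (𝓝 0) :=
    (tendsto_natCast_atTop_atTop.comp Nat.tendsto_primeCounting).const_div_atTop _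
  refine squeeze_zero (fun n => by positivity) (fun n => ?_) h1
  apply div_le_div_of_nonneg_right _ (Nat.cast_nonneg _)
  have h2 : Nat.card {ℓ : ℕ // ℓ ≤ n ∧ ℓ ∈ {ℓ : ℕ | ℓ ≤ b}} ≤ Nat.card (Fin (b + 1)) :=
    Nat.card_le_card_of_injective (fun x => (⟨x.1, Nat.lt_succ_of_le x.2.2⟩ : Fin (b + 1)))
      (fun x y h => by
        apply Subtype.ext
        exact congrArg (fun z : Fin (b + 1) => z.1) h)
  rw [Nat.card_eq_fintype_card (α := Fin (b + 1)), Fintype.card_fin] at h2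
  exact_mod_cast h2

/-- two places with different roots -/
theorem dens_diff (s : GK K →* Γ)
    (β : ∀ (ℓ : ℕ) [Fact ℓ.Prime], Γ →* Matrix (Fin n) (Fin n) ℤ_[ℓ])
    (i k : Fin r) {Pi Pk : HeightOneSpectrum (𝓞 K) → ℚ[X]}
    (hi : ∀ (ℓ : ℕ) [Fact ℓ.Prime], ∀ v ∉ S, (ℓ : 𝓞 K) ∉ v.asIdeal → ∀ σ : GK K,
      Pool.Agent.Y142.ZO.IsFrobenius v σ → fr c (β ℓ) i (s σ⁻¹) = (Pi v).map (algebraMap ℚ ℚ_[ℓ]))
    (hk : ∀ (ℓ : ℕ) [Fact ℓ.Prime], ∀ v ∉ S, (ℓ : 𝓞 K) ∉ v.asIdeal → ∀ σ : GK K,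
      Pool.Agent.Y142.ZO.IsFrobenius v σ → fr c (β ℓ) k (s σ⁻¹) = (Pk v).map (algebraMap ℚ ℚ_[ℓ]))
    (h : ∃ v ∉ S, ∃ x : ℂ, aeval x (Pi v) = 0 ∧ ∀ y : ℂ, aeval y (Pk v) = 0 →
      ∀ m : ℕ, 0 < m → x ^ m ≠ y ^ m)
    (j : ∀ (ℓ : ℕ) [Fact ℓ.Prime], ℚ_[ℓ] →+* ℂ) :
    Pool.Agent.Y142.ZI.DensityZero {ℓ | ∃ _ : Fact ℓ.Prime, ¬ DiffC c (j ℓ) (β ℓ) i k} := by
  obtain ⟨v, hv, x, hx, hxy⟩ := h
  refine (dz_le (Ideal.absNorm v.asIdeal)).mono ?_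
  rintro ℓ ⟨hp, hno⟩
  by_contra hlt
  have hlt' : Ideal.absNorm v.asIdeal < ℓ := not_le.1 hlt
  have hvℓ := not_mem_of_lt v hp.out hlt'
  obtain ⟨τ, hτ⟩ := Pool.Agent.W401.Frob.exists_frob v
  have key : ∀ (Q : ℚ[X]) (t : ℂ), (Q.map (algebraMap ℚ ℚ_[ℓ])).eval₂ (j ℓ) t = aeval t Q := by
    intro Q t
    rw [eval₂_map, aeval_def]
    congr 1
    exact Subsingleton.elim _ _
  refine hno ⟨s τ⁻¹, x, ?_, fun y hy => hxy y ?_⟩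
  · rw [hi ℓ v hv hvℓ τ hτ, key, hx]
  · rw [hk ℓ v hv hvℓ τ hτ, key] at hy
    exact hy

end

end Q43.DO
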