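import Pool.Agent.Q43.DO.Rec
import Pool.Agent.Q43.FD.Blk
import Pool.Agent.Y142.SI.Stm

/-!
# Local conditions at a prime and Frobenius elements
-/

set_option autoImplicit false
set_option linter.unusedSectionVars false

open Polynomial NumberField IsDedekindDomain
open Pool.Agent.Y142.ZO Pool.Agent.Y142.ZI Pool.Agent.Y142.SS Pool.Agent.Y142.SI
open Pool.Agent.Y142.ZD (S_SUB)
open Pool.Agent.Y142.ZS (NiceP)
open scoped Matrix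

namespace Q43.DO

/-! ### reciprocal roots -/

theorem rec_roots {F E : Type} [Field F] [Field E] [Algebra F E] {ι : Type} [Fintype ι]
    [DecidableEq ι] (B g : Matrix ι ι F) (hB : B.det ≠ 0) (h : gᵀ * B * g = B) {x : E}
    (hx : aeval x g.charpoly = 0) : x ≠ 0 ∧ aeval x⁻¹ g.charpoly = 0 := by
  set G : Matrix ι ι E := g.map (algebraMap F E) with hG
  set B' : Matrix ι ι E := B.map (algebraMap F E) with hB'
  have hB'det : B'.det ≠ 0 := by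
    have h1 : B'.det = algebraMap F E B.det := (RingHom.map_det (algebraMap F E) B).symm
    rw [h1]
    intro h0
    exact hB ((algebraMap F E).injective (by rw [h0, map_zero]))
  have hGB : Gᵀ * B' * G = B' := by
    have h1 : ((gᵀ * B * g).map (algebraMap F E)) = B' := by rw [h]
    rw [Matrix.map_mul, Matrix.map_mul] at h1
    exact h1
  have hch : ∀ t : E, aeval t g.charpoly = G.charpoly.eval t := by
    intro t
    rw [hG, Matrix.charpoly_map, eval_map_algebraMap]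
  rw [hch, Matrix.eval_charpoly] at hx
  obtain ⟨v, hv, hv0⟩ := Matrix.exists_mulVec_eq_zero_iff.2 hx
  have hGv : G *ᵥ v = x • v := by
    rw [Matrix.sub_mulVec, sub_eq_zero] at hv0
    rw [← hv0, Matrix.scalar_apply, ← Matrix.smul_one_eq_diagonal, Matrix.smul_mulVec,
      Matrix.one_mulVec]
  set w := B' *ᵥ v with hw
  have hw0 : w ≠ 0 := fun h0 => hv (Matrix.eq_zero_of_mulVec_eq_zero hB'det h0)
  have hGw : x • (Gᵀ *ᵥ w) = w := by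
    rw [hw, Matrix.mulVec_mulVec, ← Matrix.mulVec_smul, ← hGv, Matrix.mulVec_mulVec, hGB]
  have hx0 : x ≠ 0 := by
    rintro rfl
    rw [zero_smul] at hGw
    exact hw0 hGw.symm
  refine ⟨hx0, ?_⟩
  rw [hch, ← Matrix.charpoly_transpose, Matrix.eval_charpoly]
  apply Matrix.exists_mulVec_eq_zero_iff.1
  refine ⟨w, hw0, ?_⟩
  rw [Matrix.sub_mulVec, sub_eq_zero, Matrix.scalar_apply, ← Matrix.smul_one_eq_diagonal,
    Matrix.smul_mulVec, Matrix.one_mulVec]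
  conv_lhs => rw [← hGw]
  rw [smul_smul, inv_mul_cancel₀ hx0, one_smul]

theorem rec_roots_Q {ℓ : ℕ} [Fact ℓ.Prime] {ι : Type} [Fintype ι] [DecidableEq ι]
    (B g : Matrix ι ι ℚ_[ℓ]) (hB : B.det ≠ 0) (h : gᵀ * B * g = B) {Q : ℚ[X]}
    (hQ : g.charpoly = Q.map (algebraMap ℚ ℚ_[ℓ])) {x : QQ} (hx : aeval x Q = 0) :
    x ≠ 0 ∧ aeval x⁻¹ Q = 0 := by
  obtain ⟨ι'⟩ := emb ℓ
  have key : ∀ t : QQ, aeval (ι' t) (Q.map (algebraMap ℚ ℚ_[ℓ])) = ι' (aeval t Q) := by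
    intro t
    rw [aeval_def, eval₂_map, aeval_def, hom_eval₂]
    congr 1
    exact Subsingleton.elim _ _
  have h1 : aeval (ι' x) g.charpoly = 0 := by rw [hQ, key, hx, map_zero]
  obtain ⟨h2, h3⟩ := rec_roots B g hB h h1
  refine ⟨fun h0 => h2 (by rw [h0, map_zero]), ?_⟩
  rw [hQ, ← map_inv₀, key] at h3
  exact ι'.injective (by rw [h3, map_zero])

/-! ### Frobenius elements -/

theorem loc_noSet (hSUB : S_SUB) {Q : ℚ[X]} (hQm : Q.Monic) (hQs : Q.Separable) (d : ℕ) :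
    ∃ b : ℕ, ∀ ℓ : ℕ, b < ℓ → ∀ _ : Fact ℓ.Prime, ∀ σ : GK ℚ, FrobAt ℓ σ → σ ∈ NoSet d Q →
      Q43.FD.NoFactor (Q.map (algebraMap ℚ ℚ_[ℓ])) d := by
  obtain ⟨b, hb⟩ := hSUB Q hQm hQs
  refine ⟨b, fun ℓ hℓ hp σ hσ hcl f hf hfd hdvd => ?_⟩
  obtain ⟨T, hT, hTn, hTs⟩ := (hb ℓ hℓ hp σ hσ).1 f hf hdvd
  exact hcl T hT hTs (by rw [hTn, hfd])

theorem loc_fixOne (hSUB : S_SUB) {Q : ℚ[X]} (hQm : Q.Monic) (hQs : Q.Separable) :
    ∃ b : ℕ, ∀ ℓ : ℕ, b < ℓ → ∀ _ : Fact ℓ.Prime, ∀ σ : GK ℚ, FrobAt ℓ σ → σ ∈ FixOne Q →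
      ∃ μ : ℚ_[ℓ], (Q.map (algebraMap ℚ ℚ_[ℓ])).eval μ = 0 := by
  obtain ⟨b, hb⟩ := hSUB Q hQm hQs
  exact ⟨b, fun ℓ hℓ hp σ hσ hcl => (hb ℓ hℓ hp σ hσ).2 hcl⟩

theorem loc_fewFix (hSUBF : S_SUBF) {Q : ℚ[X]} (hQm : Q.Monic) (hQs : Q.Separable) :
    ∃ b : ℕ, ∀ ℓ : ℕ, b < ℓ → ∀ _ : Fact ℓ.Prime, ∀ σ : GK ℚ, FrobAt ℓ σ → σ ∈ FewFix Q →
      ∀ μ ν : ℚ_[ℓ], (Q.map (algebraMap ℚ ℚ_[ℓ])).eval μ = 0 →
        (Q.map (algebraMap ℚ ℚ_[ℓ])).eval ν = 0 → μ = ν := by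
  obtain ⟨b, hb⟩ := hSUBF Q hQm hQs
  refine ⟨b, fun ℓ hℓ hp σ hσ hcl μ ν hμ hν => ?_⟩
  obtain ⟨ι, h1, -⟩ := hb ℓ hℓ hp σ hσ
  have key : ∀ μ : ℚ_[ℓ], (Q.map (algebraMap ℚ ℚ_[ℓ])).eval μ = 0 →
      ∃ x : QQ, aeval x Q = 0 ∧ ι x = algebraMap ℚ_[ℓ] (AlgebraicClosure ℚ_[ℓ]) μ ∧ σ x = x := by
    intro μ hμ
    have h2 : aeval (algebraMap ℚ_[ℓ] (AlgebraicClosure ℚ_[ℓ]) μ)
        (Q.map (algebraMap ℚ ℚ_[ℓ])) = 0 := by
      rw [aeval_algebraMap_apply, coe_aeval_eq_eval, hμ, map_zero]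
    obtain ⟨x, hx, hxμ⟩ := lift_root ℓ ι hQm.ne_zero h2
    refine ⟨x, hx, hxμ, ?_⟩
    have h3 := h1 (X - C μ) (dvd_iff_isRoot.2 hμ) x hx (by
      rw [map_sub, aeval_X, aeval_C, hxμ, sub_self])
    rw [map_sub, aeval_X, aeval_C, ← hxμ, sub_eq_zero] at h3
    exact ι.injective h3
  obtain ⟨x, hx, hxμ, hσx⟩ := key μ hμ
  obtain ⟨y, hy, hyν, hσy⟩ := key ν hν
  have h4 := hcl x y hx hy hσx hσy
  apply (algebraMap ℚ_[ℓ] (AlgebraicClosure ℚ_[ℓ])).injective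
  rw [← hxμ, ← hyν, h4]

/-- the square root of `D` -/
theorem loc_sqrt (hSUB : S_SUB) {D : ℚ} (hD : D ≠ 0) {δ : QQ} (hδ : δ * δ = algebraMap ℚ QQ D) :
    ∃ b : ℕ, ∀ ℓ : ℕ, b < ℓ → ∀ _ : Fact ℓ.Prime, ∀ σ : GK ℚ, FrobAt ℓ σ →
      (σ δ = δ → IsSquare (algebraMap ℚ ℚ_[ℓ] D)) ∧
      (σ δ = -δ → ¬ IsSquare (algebraMap ℚ ℚ_[ℓ] D)) := by
  have hδ0 : δ ≠ 0 := by
    rintro rfl
    rw [mul_zero] at hδ
    exact hD ((algebraMap ℚ QQ).injective (by rw [← hδ, map_zero]))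
  have hm : (X ^ 2 - C D : ℚ[X]).Monic := monic_X_pow_sub_C D two_ne_zero
  have hs : (X ^ 2 - C D : ℚ[X]).Separable :=
    separable_X_pow_sub_C D (by norm_num) hD
  obtain ⟨b, hb⟩ := hSUB _ hm hs
  have hroot : ∀ x : QQ, aeval x (X ^ 2 - C D : ℚ[X]) = 0 ↔ x * x = δ * δ := by
    intro x
    rw [map_sub, map_pow, aeval_X, aeval_C, sub_eq_zero, hδ, pow_two]
  refine ⟨b, fun ℓ hℓ hp σ hσ => ⟨fun h => ?_, fun h => ?_⟩⟩
  · obtain ⟨a, ha⟩ := (hb ℓ hℓ hp σ hσ).2 ⟨δ, (hroot δ).2 rfl, h⟩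
    refine ⟨a, ?_⟩
    rw [Polynomial.map_sub, Polynomial.map_pow, map_X, map_C, eval_sub, eval_pow, eval_X, eval_C,
      sub_eq_zero, pow_two] at ha
    exact ha.symm
  · rintro ⟨a, ha⟩
    obtain ⟨T, hT, hTn, hTs⟩ := (hb ℓ hℓ hp σ hσ).1 (X - C a) (monic_X_sub_C a) (by
      apply dvd_iff_isRoot.2
      rw [IsRoot.def, Polynomial.map_sub, Polynomial.map_pow, map_X, map_C, eval_sub, eval_pow,
        eval_X, eval_C, ha, pow_two, sub_self])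
    rw [natDegree_X_sub_C, Set.ncard_eq_one] at hTn
    obtain ⟨t, rfl⟩ := hTn
    have h1 := (hroot t).1 (hT t rfl)
    have h2 : σ t = t := hTs t rfl
    have h3 : t = δ ∨ t = -δ := mul_self_eq_mul_self_iff.1 h1
    have h4 : σ t = -t := by
      rcases h3 with rfl | rfl
      · exact h
      · rw [map_neg, h]
    rw [h2] at h4
    have h5 : t = 0 := self_eq_neg.1 h4
    rcases h3 with h3 | h3
    · exact hδ0 (by rw [← h3, h5])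
    · exact hδ0 (by rw [← neg_neg δ, ← h3, h5, neg_zero])

end Q43.DO
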