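import Pool.Agent.Q43.DO.Sgn

/-!
# Reciprocal polynomials of odd degree
-/

set_option autoImplicit false

open Polynomial
open Pool.Agent.Y142.ZO Pool.Agent.Y142.ZI Pool.Agent.Y142.SS Pool.Agent.Y142.SI

namespace Q43.DO

theorem map_eq_prod {I : Type} [Fintype I] {Q : ℚ[X]} (hQm : Q.Monic) (hQs : Q.Separable)
    (y : I → QQ) (hy : Function.Injective y)
    (hroot : ∀ x : QQ, aeval x Q = 0 ↔ ∃ a, y a = x) :
    Q.map (algebraMap ℚ QQ) = ∏ a, (X - C (y a)) := by
  classical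
  have h1 : (Q.map (algebraMap ℚ QQ)).roots = (Finset.univ.val : Multiset I).map y := by
    refine (Multiset.Nodup.ext (nodup_roots hQs.map) (Multiset.Nodup.map hy Finset.univ.nodup)).2 ?_
    intro x
    rw [mem_roots (hQm.map _).ne_zero, IsRoot.def, eval_map_algebraMap, hroot, Multiset.mem_map]
    constructor
    · rintro ⟨a, rfl⟩
      exact ⟨a, Finset.mem_univ _, rfl⟩
    · rintro ⟨a, -, rfl⟩
      exact ⟨a, rfl⟩
  have h2 := (IsAlgClosed.splits (Q.map (algebraMap ℚ QQ))).eq_prod_roots_of_monic (hQm.map _)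
  rw [h2, h1, Multiset.map_map]
  rfl

theorem odd_rec {Q : ℚ[X]} (hQm : Q.Monic) (hQs : Q.Separable) (hodd : Odd Q.natDegree)
    (hinv : ∀ x : QQ, aeval x Q = 0 → x ≠ 0 ∧ aeval x⁻¹ Q = 0)
    (hpow : ∀ x y : QQ, aeval x Q = 0 → aeval y Q = 0 → x ^ 2 = y ^ 2 → x = y) :
    ∃ (m : ℕ) (ε : ℚ) (R : ℚ[X]) (δ : QQ), Q.natDegree = 2 * m + 1 ∧ ε * ε = 1 ∧
      Q = (X - C ε) * R ∧ R.eval 1 ≠ 0 ∧ R.eval (-1) ≠ 0 ∧
      δ * δ = algebraMap ℚ QQ ((-1) ^ m * (R.eval 1 * R.eval (-1))) ∧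
      ∀ (e : ℤˣ) (g : GK ℚ), g ∈ Sgn e Q → g δ = ((e : ℤ) : QQ) * δ := by
  classical
  obtain ⟨m, y, hdeg, hyinj, hroot, hyinv, hy1⟩ := exists_enum hQs hodd hinv hpow
  have hy1' : y none = 1 ∨ y none = -1 := by
    have h1 : (y none - 1) * (y none + 1) = 0 := by
      have : (y none - 1) * (y none + 1) = y none * y none - 1 := by ring
      rw [this, hy1, sub_self]
    rcases mul_eq_zero.1 h1 with h | h
    · exact Or.inl (sub_eq_zero.1 h)
    · exact Or.inr (eq_neg_of_add_eq_zero_left h)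
  obtain ⟨ε, hε, hεy⟩ : ∃ ε : ℚ, ε * ε = 1 ∧ y none = algebraMap ℚ QQ ε := by
    rcases hy1' with h | h
    · exact ⟨1, by norm_num, by rw [h, map_one]⟩
    · exact ⟨-1, by norm_num, by rw [h, map_neg, map_one]⟩
  have hQε : Q.eval ε = 0 := by
    have h1 := (hroot (y none)).2 ⟨none, rfl⟩
    rw [hεy, aeval_algebraMap_apply] at h1
    exact (algebraMap ℚ QQ).injective (by rw [map_zero]; exact h1)
  obtain ⟨R, hR⟩ := dvd_iff_isRoot.2 (show Q.IsRoot ε from hQε)
  have hRε : R.eval ε ≠ 0 := by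
    intro h0
    obtain ⟨R', hR'⟩ := dvd_iff_isRoot.2 (show R.IsRoot ε from h0)
    have h1 := hQs.squarefree (X - C ε) ⟨R', by rw [hR, hR', mul_assoc]⟩
    exact not_isUnit_X_sub_C ε h1
  have hRη : ∀ η : ℚ, η * η = 1 → R.eval η ≠ 0 := by
    intro η hη h0
    have h1 : Q.eval η = 0 := by rw [hR, eval_mul, h0, mul_zero]
    have h2 : aeval (algebraMap ℚ QQ η) Q = 0 := by
      rw [aeval_algebraMap_apply, coe_aeval_eq_eval, h1, map_zero]
    have h3 : aeval (algebraMap ℚ QQ ε) Q = 0 := by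
      rw [aeval_algebraMap_apply, coe_aeval_eq_eval, hQε, map_zero]
    have h4 := hpow _ _ h2 h3 (by rw [← map_pow, ← map_pow, pow_two, pow_two, hη, hε])
    rw [(algebraMap ℚ QQ).injective h4] at h0
    exact hRε h0
  refine ⟨m, ε, R, ∏ i, (y (some (i, true)) - y (some (i, false))), hdeg, hε, hR,
    hRη 1 (by norm_num), hRη (-1) (by norm_num), ?_, fun e g hg => sgn_delta y hyinj hroot hyinv
      (by rw [hεy]; exact (conv g).commutes ε) hg⟩
  -- the square
  have hprod := map_eq_prod hQm hQs y hyinj hroot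
  rw [Fintype.prod_option, hεy, hR, Polynomial.map_mul, Polynomial.map_sub, map_X, map_C] at hprod
  have hR1 := mul_left_cancel₀ (X_sub_C_ne_zero _) hprod
  rw [Fintype.prod_prod_type] at hR1
  have hev : ∀ η : ℚ, algebraMap ℚ QQ (R.eval η) =
      ∏ i, ((algebraMap ℚ QQ η - y (some (i, true))) * (algebraMap ℚ QQ η - y (some (i, false)))) := by
    intro η
    have h1 := congrArg (eval (algebraMap ℚ QQ η)) hR1
    rw [eval_map, eval₂_at_apply, eval_prod] at h1
    rw [h1]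
    refine Finset.prod_congr rfl fun i _ => ?_
    rw [Fintype.prod_bool, eval_mul, eval_sub, eval_sub, eval_X, eval_C, eval_C]
  rw [map_mul, map_mul, hev, hev, map_pow, map_neg, map_one, ← Finset.prod_mul_distrib,
    ← Finset.prod_mul_distrib]
  have hm : (-1 : QQ) ^ m = ∏ _i : Fin m, (-1 : QQ) := by
    rw [Finset.prod_const, Finset.card_univ, Fintype.card_fin]
  rw [hm, ← Finset.prod_mul_distrib]
  refine Finset.prod_congr rfl fun i _ => ?_
  have h1 : y (some (i, false)) = (y (some (i, true)))⁻¹ := hyinv i true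
  have h2 : y (some (i, true)) ≠ 0 := (hinv _ ((hroot _).2 ⟨_, rfl⟩)).1
  have h3 : y (some (i, true)) * y (some (i, false)) = 1 := by rw [h1, mul_inv_cancel₀ h2]
  linear_combination (y (some (i, true)) * y (some (i, false)) - 1) * h3

end Q43.DO
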