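import Pool.Agent.Q43.DO.Cls

/-!
# The sign of a permutation of the roots of a reciprocal polynomial
-/

set_option autoImplicit false

open Polynomial
open Pool.Agent.Y142.ZO Pool.Agent.Y142.ZI Pool.Agent.Y142.SS Pool.Agent.Y142.SI

namespace Q43.DO

open Equiv.Perm in
theorem sign_flip {I : Type} [Fintype I] [DecidableEq I] (π : Equiv.Perm (I × Bool))
    (τ : Equiv.Perm I) (f : I → Bool) (h : ∀ i b, π (i, b) = (τ i, xor b (f i))) :
    sign π = ∏ i, (if f i then (-1 : ℤˣ) else 1) := by
  let σ : I → Equiv.Perm Bool := fun i => if f i then Equiv.boolNot else 1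
  have hσ : ∀ i b, σ i b = xor b (f i) := by
    intro i b
    by_cases hf : f i
    · simp only [σ, hf, if_true]
      cases b <;> rfl
    · simp only [Bool.not_eq_true] at hf
      simp only [σ, hf]
      cases b <;> rfl
  have h1 : π = Equiv.prodCongrLeft (fun _ : Bool => τ) * Equiv.prodCongrRight σ := by
    ext ⟨i, b⟩
    · rw [h]
      rfl
    · rw [h]
      change xor b (f i) = σ i b
      rw [hσ]
  rw [h1, map_mul, sign_prodCongrLeft, sign_prodCongrRight]
  have h2 : ∏ _k : Bool, sign τ = 1 := by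
    rw [Finset.prod_const]
    change sign τ ^ 2 = 1
    exact Int.units_sq _
  rw [h2, one_mul]
  refine Finset.prod_congr rfl fun i _ => ?_
  by_cases hf : f i
  · simp only [σ, hf, if_true]
    decide
  · simp only [σ, hf]
    simp

/-- the action on the product of the differences of inverse roots -/
theorem sgn_delta {m : ℕ} {Q : ℚ[X]} (y : Option (Fin m × Bool) → QQ) (hy : Function.Injective y)
    (hroot : ∀ x : QQ, aeval x Q = 0 ↔ ∃ a, y a = x)
    (hinv : ∀ i b, y (some (i, !b)) = (y (some (i, b)))⁻¹)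
    {e : ℤˣ} {g : GK ℚ} (h0 : g (y none) = y none) (hg : g ∈ Sgn e Q) :
    g (∏ i, (y (some (i, true)) - y (some (i, false)))) =
      ((e : ℤ) : QQ) * ∏ i, (y (some (i, true)) - y (some (i, false))) := by
  classical
  obtain ⟨n, z, π, hz, hr, hgz, hπ⟩ := hg
  have hrange : Set.range y = Set.range z := by
    ext x
    rw [Set.mem_range, Set.mem_range, ← hroot, ← hr]
  let E : Option (Fin m × Bool) ≃ Fin n :=
    (Equiv.ofInjective y hy).trans ((Equiv.setCongr hrange).trans (Equiv.ofInjective z hz).symm)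
  have hE : ∀ a, z (E a) = y a := by
    intro a
    have h1 : (Equiv.ofInjective z hz) (E a) = (Equiv.setCongr hrange) (Equiv.ofInjective y hy a) :=
      (Equiv.ofInjective z hz).apply_symm_apply _
    exact congrArg Subtype.val h1
  let π' : Equiv.Perm (Option (Fin m × Bool)) := E.symm.permCongr π
  have hπ's : Equiv.Perm.sign π' = e := by rw [Equiv.Perm.sign_permCongr, hπ]
  have hgy : ∀ a, g (y a) = y (π' a) := by
    intro a
    rw [← hE a, hgz, ← hE (π' a)]
    congr 1
    change π (E a) = E (E.symm (π (E.symm.symm a)))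
    rw [Equiv.apply_symm_apply, Equiv.symm_symm]
  have hnone : π' none = none := by
    apply hy
    rw [← hgy, h0]
  let π'' : Equiv.Perm (Fin m × Bool) := Equiv.removeNone π'
  have hopt : π''.optionCongr = π' := by
    have h1 := map_equiv_removeNone π'
    rw [hnone, Equiv.swap_self] at h1
    exact h1
  have hπ''s : Equiv.Perm.sign π'' = e := by
    rw [← hπ's, ← hopt, Equiv.optionCongr_sign]
  have hgy' : ∀ a, g (y (some a)) = y (some (π'' a)) := by
    intro a
    rw [hgy, ← hopt]
    rfl
  have hflip : ∀ i b, π'' (i, !b) = ((π'' (i, b)).1, !(π'' (i, b)).2) := by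
    intro i b
    have h1 : y (some (π'' (i, !b))) = y (some ((π'' (i, b)).1, !(π'' (i, b)).2)) := by
      rw [← hgy', hinv, map_inv₀, hgy', hinv]
    exact Option.some_injective _ (hy h1)
  let τ : Fin m → Fin m := fun i => (π'' (i, true)).1
  have hτ : Function.Injective τ := by
    intro i k hik
    by_cases h2 : (π'' (i, true)).2 = (π'' (k, true)).2
    · have h3 : π'' (i, true) = π'' (k, true) := Prod.ext hik h2
      exact congrArg Prod.fst (π''.injective h3)
    · have h3 : π'' (i, true) = π'' (k, !true) := by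
        rw [hflip]
        refine Prod.ext hik ?_
        change (π'' (i, true)).2 = !(π'' (k, true)).2
        revert h2
        cases (π'' (i, true)).2 <;> cases (π'' (k, true)).2 <;> simp
      have h4 := congrArg Prod.snd (π''.injective h3)
      exact absurd h4 (by simp)
  let τe : Equiv.Perm (Fin m) := Equiv.ofBijective τ (Finite.injective_iff_bijective.1 hτ)
  have hsign := sign_flip π'' τe (fun i => !(π'' (i, true)).2) (by
    intro i b
    cases b
    · have h1 := hflip i true
      change π'' (i, false) = _ at h1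
      rw [h1]
      refine Prod.ext rfl ?_
      change (!(π'' (i, true)).2) = xor false (!(π'' (i, true)).2)
      rw [Bool.false_xor]
    · refine Prod.ext rfl ?_
      change (π'' (i, true)).2 = xor true (!(π'' (i, true)).2)
      cases (π'' (i, true)).2 <;> rfl)
  rw [hπ''s] at hsign
  rw [map_prod]
  have hfac : ∀ i, g (y (some (i, true)) - y (some (i, false))) =
      (((if (!(π'' (i, true)).2) then (-1 : ℤˣ) else 1 : ℤˣ) : ℤ) : QQ) *
        (y (some (τe i, true)) - y (some (τe i, false))) := by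
    intro i
    have h1 := hflip i true
    change π'' (i, false) = _ at h1
    rw [map_sub, hgy', hgy', h1]
    have h2 : π'' (i, true) = (τe i, (π'' (i, true)).2) := rfl
    generalize hb : (π'' (i, true)).2 = b at h2
    rw [h2]
    cases b
    · simp
    · simp
  rw [Finset.prod_congr rfl fun i _ => hfac i, Finset.prod_mul_distrib,
    Equiv.prod_comp τe (fun i => y (some (i, true)) - y (some (i, false))), hsign]
  congr 1
  push_cast
  rfl

/-- an enumeration of the roots of a reciprocal polynomial of odd degree -/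
theorem exists_enum {Q : ℚ[X]} (hQs : Q.Separable) (hodd : Odd Q.natDegree)
    (hinv : ∀ x : QQ, aeval x Q = 0 → x ≠ 0 ∧ aeval x⁻¹ Q = 0)
    (hpow : ∀ x y : QQ, aeval x Q = 0 → aeval y Q = 0 → x ^ 2 = y ^ 2 → x = y) :
    ∃ (m : ℕ) (y : Option (Fin m × Bool) → QQ), Q.natDegree = 2 * m + 1 ∧
      Function.Injective y ∧ (∀ x : QQ, aeval x Q = 0 ↔ ∃ a, y a = x) ∧
      (∀ i b, y (some (i, !b)) = (y (some (i, b)))⁻¹) ∧ y none * y none = 1 := by
  classical
  have hQ0 : Q ≠ 0 := hQs.ne_zero
  set F : Finset QQ := (Q.aroots QQ).toFinset with hF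
  have hmem : ∀ x, x ∈ F ↔ aeval x Q = 0 := by
    intro x
    rw [hF, Multiset.mem_toFinset, mem_aroots]
    exact ⟨fun h => h.2, fun h => ⟨hQ0, h⟩⟩
  have hcard : F.card = Q.natDegree := by
    rw [hF, Multiset.toFinset_card_of_nodup (nodup_aroots_iff_of_splits hQ0 (IsAlgClosed.splits _)
      |>.2 hQs)]
    have h1 := splits_iff_card_roots.1 (IsAlgClosed.splits (Q.map (algebraMap ℚ QQ)))
    rw [natDegree_map] at h1
    exact h1
  obtain ⟨ε, hε, hεinv⟩ : ∃ ε ∈ F, ε⁻¹ = ε := by
    by_contra hne
    push Not at hne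
    have h1 : ∑ x ∈ F, (1 : ZMod 2) = 0 := by
      refine Finset.sum_involution (fun x _ => x⁻¹) (fun x _ => ?_) (fun x hx _ => hne x hx)
        (fun x hx => ?_) (fun x _ => inv_inv x)
      · decide
      · exact (hmem _).2 (hinv x ((hmem x).1 hx)).2
    rw [Finset.sum_const, nsmul_eq_mul, mul_one, hcard] at h1
    have h2 := (ZMod.natCast_eq_zero_iff _ 2).1 h1
    rw [← even_iff_two_dvd] at h2
    exact (Nat.not_even_iff_odd.2 hodd) h2
  have hε0 : ε ≠ 0 := (hinv ε ((hmem ε).1 hε)).1
  have hεε : ε * ε = 1 := by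
    conv_lhs => rw [← hεinv]
    rw [hεinv]
    conv_lhs =>
      congr
      rw [← hεinv]
    exact inv_mul_cancel₀ hε0
  have hfix : ∀ x ∈ F, x⁻¹ = x → x = ε := by
    intro x hx hxi
    have hx0 : x ≠ 0 := (hinv x ((hmem x).1 hx)).1
    refine hpow x ε ((hmem x).1 hx) ((hmem ε).1 hε) ?_
    have h1 : x * x = 1 := by
      have h2 : x⁻¹ * x = 1 := inv_mul_cancel₀ hx0
      rwa [hxi] at h2
    rw [pow_two, pow_two, h1, hεε]
  let H : Finset QQ := F.filter (fun x => WellOrderingRel x x⁻¹)
  have hH : ∀ x, x ∈ H ↔ x ∈ F ∧ WellOrderingRel x x⁻¹ := fun x => Finset.mem_filter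
  let x : Fin H.card → QQ := fun i => (H.equivFin.symm i).1
  have hx : ∀ i, x i ∈ H := fun i => (H.equivFin.symm i).2
  have hxinj : Function.Injective x := fun i k h => H.equivFin.symm.injective (Subtype.ext h)
  have hxsurj : ∀ a ∈ H, ∃ i, x i = a := by
    intro a ha
    refine ⟨H.equivFin ⟨a, ha⟩, ?_⟩
    change (H.equivFin.symm (H.equivFin ⟨a, ha⟩)).1 = a
    rw [Equiv.symm_apply_apply]
  have hirr : ∀ a : QQ, ¬ WellOrderingRel a a := fun a => irrefl_of WellOrderingRel a
  have hasy : ∀ a b : QQ, WellOrderingRel a b → ¬ WellOrderingRel b a :=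
    fun a b h => asymm_of WellOrderingRel h
  have hx2 : ∀ i k, x i ≠ (x k)⁻¹ := by
    intro i k h
    have h1 := ((hH _).1 (hx i)).2
    have h2 := ((hH _).1 (hx k)).2
    rw [h, inv_inv] at h1
    exact hasy _ _ h1 h2
  have hxε : ∀ i, x i ≠ ε := by
    intro i h
    have h1 := ((hH _).1 (hx i)).2
    rw [h, hεinv] at h1
    exact hirr _ h1
  have hxε' : ∀ i, (x i)⁻¹ ≠ ε := by
    intro i h
    apply hxε i
    rw [← hεinv, ← h, inv_inv]
  let y : Option (Fin H.card × Bool) → QQ := fun a =>
    match a with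
    | none => ε
    | some (i, true) => x i
    | some (i, false) => (x i)⁻¹
  have hyinj : Function.Injective y := by
    rintro (_ | ⟨i, _ | _⟩) (_ | ⟨k, _ | _⟩) h
    · rfl
    · exact absurd h.symm (hxε' k)
    · exact absurd h.symm (hxε k)
    · exact absurd h (hxε' i)
    · have h1 : (x i)⁻¹ = (x k)⁻¹ := h
      rw [hxinj (inv_injective h1)]
    · exact absurd h.symm (hx2 k i)
    · exact absurd h (hxε i)
    · exact absurd h (hx2 i k)
    · have h1 : x i = x k := h
      rw [hxinj h1]
  have hyroot : ∀ a, y a ∈ F := by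
    rintro (_ | ⟨i, _ | _⟩)
    · exact hε
    · exact (hmem _).2 (hinv _ ((hmem _).1 ((hH _).1 (hx i)).1)).2
    · exact ((hH _).1 (hx i)).1
  have hysurj : ∀ a ∈ F, ∃ b, y b = a := by
    intro a ha
    rcases trichotomous_of WellOrderingRel a a⁻¹ with h | h | h
    · obtain ⟨i, hi⟩ := hxsurj a ((hH a).2 ⟨ha, h⟩)
      exact ⟨some (i, true), hi⟩
    · exact ⟨none, (hfix a ha h.symm).symm⟩
    · obtain ⟨i, hi⟩ := hxsurj a⁻¹ ((hH _).2 ⟨(hmem _).2 (hinv a ((hmem a).1 ha)).2, by
        rwa [inv_inv]⟩)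
      refine ⟨some (i, false), ?_⟩
      change (x i)⁻¹ = a
      rw [hi, inv_inv]
  refine ⟨H.card, y, ?_, hyinj, fun a => ⟨fun h => hysurj a ((hmem a).2 h), ?_⟩, ?_, hεε⟩
  · have h1 : F = Finset.univ.image y := by
      ext a
      rw [Finset.mem_image]
      constructor
      · intro h
        obtain ⟨b, hb⟩ := hysurj a h
        exact ⟨b, Finset.mem_univ _, hb⟩
      · rintro ⟨b, -, rfl⟩
        exact hyroot b
    rw [← hcard]
    conv_lhs => rw [h1]
    rw [Finset.card_image_of_injective _ hyinj, Finset.card_univ, Fintype.card_option,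
      Fintype.card_prod, Fintype.card_fin, Fintype.card_bool, mul_comm]
  · rintro ⟨b, rfl⟩
    exact (hmem _).1 (hyroot b)
  · rintro i (_ | _)
    · change x i = (x i)⁻¹⁻¹
      rw [inv_inv]
    · rfl

end Q43.DO
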